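import Pool.Agent.Lib.MP_a3a416_nt.AlmostAll

/-!
Almost all primes have few irregular indices in every initial range.

For a prime `p` and `N ≥ 1` let `irr p N` be the number of `k ≤ N` such that `p` divides the numerator
of the Bernoulli number `B_{2k}`. We bound the number of primes `p ≤ x` for which, for some `N ≥ 1`,
`irr p N` is larger than `w (1 + log⁺ w)^(1+δ)` with `w = l N² log p / p`.
-/

namespace Pool.Agent.Lib.MP_a3a416_nt.Variants.AlmostAllPrimes

/-- The number of `1 ≤ k ≤ N` such that `p` divides the numerator of the Bernoulli number `B_{2k}`. -/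
noncomputable def irr (p N : ℕ) : ℕ :=
  {k ∈ Finset.Icc 1 N | (p : ℤ) ∣ (bernoulli (2 * k)).num}.card

/-- The function `w (1 + log⁺ w)^(1+δ)`. -/
noncomputable def G (δ w : ℝ) : ℝ := w * (1 + max 0 (Real.log w)) ^ (1 + δ)

theorem result (δ : ℝ) (hδ : 0 < δ) : ∃ C : ℝ, ∀ x l : ℝ, 2 ≤ x → 1 ≤ l →
    ({p : ℕ | p.Prime ∧ (p : ℝ) ≤ x ∧
      ∃ N : ℕ, 1 ≤ N ∧ G δ (l * (N : ℝ) ^ 2 * Real.log p / p) < (irr p N : ℝ)}.ncard : ℝ) ≤
      Real.sqrt x + C * x / (l * Real.log x) := by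
  obtain ⟨C, hC⟩ := Pool.Agent.Lib.MP_a3a416_nt.almost_all hδ
  refine ⟨C, fun x l hx hl => ?_⟩
  rw [mul_div_assoc]
  exact hC x l hx hl

end Pool.Agent.Lib.MP_a3a416_nt.Variants.AlmostAllPrimes
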