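import Pool.Agent.Lib.MP_a3a416_nt.SJ5.Main

/-!
# A positive proportion of the primes `p` does not divide `B_{p-5}`

An odd prime `p` is regular iff it divides none of the numerators of `B_2, B_4, ..., B_{p-3}`.
For all large `x` and every rational number `c` whose numerator and denominator are at most
`exp (x / 10000)` in absolute value, at least `x / (2500 log x)` primes `p`, `7 ≤ p ≤ x`, do not
divide the numerator of `B_{p-5} - c`.

`c = 0`: a positive proportion of the primes `p` does not divide the Bernoulli number `B_{p-5}`.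
`c` fixed: the finite zeta value `(B_{p-5} mod p)_p` of Kaneko and Zagier (the analogue of
`zeta(5)`) is irrational.
-/

namespace Pool.Agent.Results.MP_a3a416_nt.IndexFive

theorem result : ∃ x₀ : ℕ, ∀ x : ℕ, x₀ ≤ x → ∀ c : ℚ,
    |(c.num : ℝ)| ≤ Real.exp (x / 10000) → (c.den : ℝ) ≤ Real.exp (x / 10000) →
    (x : ℝ) / (2500 * Real.log x) ≤
      (((Finset.Icc 7 x).filter (fun p : ℕ => p.Prime ∧
        ¬ (p : ℤ) ∣ (bernoulli (p - 5) - c).num)).card : ℝ) := by
  obtain ⟨x₀, h⟩ := Filter.eventually_atTop.1 _root_.MP_a3a416_nt.SJ5.main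
  refine ⟨x₀, fun x hx c h1 h2 => (h x hx c h1 h2).trans ?_⟩
  gcongr
  intro p hp
  rw [Finset.mem_filter, Finset.mem_range] at hp
  rw [Finset.mem_filter, Finset.mem_Icc]
  exact ⟨⟨hp.2.2.1, by omega⟩, hp.2.1, hp.2.2.2⟩

end Pool.Agent.Results.MP_a3a416_nt.IndexFive
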