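import Pool.Agent.Lib.MP_a3a416_nt.HK.ReadI
import Pool.Agent.Lib.MP_a3a416_nt.HK.ReadC
import Pool.Agent.Lib.MP_a3a416_nt.HK.ReadN

/-!
The last Bernoulli numbers `B_{p-3}, B_{p-5}, ..., B_{p-1-2J}` modulo `p`.

An odd prime `p` is regular iff `p` divides none of the numerators of `B_2, B_4, ..., B_{p-3}` (Kummer).  There are
absolute constants `c, C > 0` such that:

1. (Non-zero terms.)  For all `K ≥ 2` and `x`, all but at most `C (log K / √K) π(x)` of the primes `p ≤ x` have the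
   following property: for every `J` with `K ≤ J ≤ √x` at least `c √J` of the numbers
   `B_{p-3}, B_{p-5}, ..., B_{p-1-2J}` are not divisible by `p`.
2. (Linear independence.)  For every `J ≥ 2` there is a set `G` of at least `c √(J / log J) - 1` integers `g` in `[1, J]`
   such that `1` and the finite zeta values `(B_{p-1-2g} mod p)_p`, `g ∈ G`, are linearly independent over `ℚ`: for all
   integers `a₀` and `a_g`, not all zero, `a₀ + ∑ a_g B_{p-1-2g} ≢ 0 (mod p)` for a set of primes of positive upper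
   density.
3. (Linear complexity.)  For all `J ≥ 2`, `s ≥ 0` and `x ≥ J^3 / (s + 1)^2`, at most `C (s + 1) (log J / J) π(x)` primes
   `p` in `[2J + 3, x]` have integers `q_0, ..., q_s`, not all divisible by `p`, such that
   `q_0 B_{p-1-2g} + q_1 B_{p-1-2(g+1)} + ... + q_s B_{p-1-2(g+s)} ≡ 0 (mod p)` for all `1 ≤ g ≤ J - s`.

(`p` divides a rational number if it divides its numerator; all the Bernoulli numbers above are `p`-integral.)

The theorem `general` below is the general statement from which 1, 2 and 3 follow: recurrences with polynomial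
coefficients, with exceptions, after the subtraction of an element of a fixed space of small dimension.
-/

namespace Pool.Agent.Results.MP_a3a416_nt.LastBernoulli

open Classical in
theorem result : ∃ c C : ℝ, 0 < c ∧ 0 < C ∧
    (∀ K x : ℕ, 2 ≤ K →
      (((Finset.Icc 1 x).filter (fun p : ℕ => p.Prime ∧ ∃ J : ℕ, K ≤ J ∧ J ^ 2 ≤ x ∧
        (((Finset.Icc 1 J).filter (fun g : ℕ => 2 * g + 3 ≤ p ∧
          ¬ (p : ℤ) ∣ (bernoulli (p - 1 - 2 * g)).num)).card : ℝ) < c * Real.sqrt J)).card : ℝ) ≤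
      C * (Real.log K / Real.sqrt K) * Nat.primeCounting x) ∧
    (∀ J : ℕ, 2 ≤ J → ∃ G ⊆ Finset.Icc 1 J,
      c * Real.sqrt (J / Real.log J) ≤ (G.card : ℝ) + 1 ∧
      ∀ (a₀ : ℤ) (a : ℕ → ℤ), (a₀ ≠ 0 ∨ ∃ g ∈ G, a g ≠ 0) →
        ∃ δ : ℝ, 0 < δ ∧ ∀ x₀ : ℕ, ∃ x : ℕ, x₀ ≤ x ∧
          δ * Nat.primeCounting x ≤ (((Finset.Icc 1 x).filter (fun p : ℕ => p.Prime ∧
            ¬ (p : ℤ) ∣ (a₀ + ∑ g ∈ G, a g * bernoulli (p - 1 - 2 * g)).num)).card : ℝ)) ∧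
    (∀ J s x : ℕ, 2 ≤ J → J ^ 3 ≤ x * (s + 1) ^ 2 →
      (((Finset.Icc (2 * J + 3) x).filter (fun p : ℕ => p.Prime ∧
        ∃ q : ℕ → ℤ, (∃ i ≤ s, ¬ (p : ℤ) ∣ q i) ∧ ∀ g : ℕ, 1 ≤ g → g + s ≤ J →
          (p : ℤ) ∣ (∑ i ∈ Finset.range (s + 1), q i * bernoulli (p - 1 - 2 * (g + i))).num)).card : ℝ) ≤
      C * ((s + 1) * (Real.log J / J)) * Nat.primeCounting x) := by
  obtain ⟨c₁, C₁, hc₁, hC₁, h₁⟩ := _root_.MP_a3a416_nt.HK.nonzero_part
  obtain ⟨c₂, hc₂, h₂⟩ := _root_.MP_a3a416_nt.HK.indep_part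
  obtain ⟨C₃, hC₃, h₃⟩ := _root_.MP_a3a416_nt.HK.complexity_part
  refine ⟨min c₁ c₂, max C₁ C₃, lt_min hc₁ hc₂, lt_max_of_lt_left hC₁, ?_, ?_, ?_⟩
  · intro K x hK
    have h := h₁ K x hK
    have hsub : (Finset.Icc 1 x).filter (fun p : ℕ => p.Prime ∧ ∃ J : ℕ, K ≤ J ∧ J ^ 2 ≤ x ∧
        (((Finset.Icc 1 J).filter (fun g : ℕ => 2 * g + 3 ≤ p ∧
          ¬ (p : ℤ) ∣ (bernoulli (p - 1 - 2 * g)).num)).card : ℝ) < min c₁ c₂ * Real.sqrt J) ⊆
        (Finset.Icc 1 x).filter (fun p => p.Prime ∧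
        ∃ K' : ℕ, K ≤ K' ∧ K' ^ 2 ≤ x ∧
          ((_root_.MP_a3a416_nt.BB.goodIdx K' p).card : ℝ) < c₁ * Real.sqrt K') := by
      intro p hp
      rw [Finset.mem_filter] at hp ⊢
      obtain ⟨hp1, hpp, J, hKJ, hJx, hlt⟩ := hp
      refine ⟨hp1, hpp, J, hKJ, hJx, ?_⟩
      refine lt_of_le_of_lt (le_of_eq ?_) (lt_of_lt_of_le hlt
        (mul_le_mul_of_nonneg_right (min_le_left _ _) (Real.sqrt_nonneg _)))
      unfold _root_.MP_a3a416_nt.BB.goodIdx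
      norm_cast
    have h' : (((Finset.Icc 1 x).filter (fun p : ℕ => p.Prime ∧ ∃ J : ℕ, K ≤ J ∧ J ^ 2 ≤ x ∧
        (((Finset.Icc 1 J).filter (fun g : ℕ => 2 * g + 3 ≤ p ∧
          ¬ (p : ℤ) ∣ (bernoulli (p - 1 - 2 * g)).num)).card : ℝ) < min c₁ c₂ * Real.sqrt J)).card : ℝ) ≤
        C₁ * (Real.log K / Real.sqrt K) * Nat.primeCounting x :=
      le_trans (by exact_mod_cast Finset.card_le_card hsub) h
    refine h'.trans (mul_le_mul_of_nonneg_right (mul_le_mul_of_nonneg_right (le_max_left _ _) ?_)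
      (Nat.cast_nonneg _))
    exact div_nonneg (Real.log_natCast_nonneg _) (Real.sqrt_nonneg _)
  · intro J hJ
    obtain ⟨G, hG, hGc, h⟩ := h₂ J hJ
    refine ⟨G, hG, (mul_le_mul_of_nonneg_right (min_le_right _ _) (Real.sqrt_nonneg _)).trans hGc, ?_⟩
    intro a₀ a ha
    obtain ⟨δ, hδ, hx⟩ := h a₀ a ha
    exact ⟨δ, hδ, fun x₀ => hx x₀⟩
  · intro J s x hJ hx
    refine (h₃ J s x hJ hx).trans (mul_le_mul_of_nonneg_right (mul_le_mul_of_nonneg_right (le_max_right _ _) ?_)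
      (Nat.cast_nonneg _))
    have h1 : 0 ≤ Real.log J := Real.log_natCast_nonneg _
    positivity

open Classical in
/-- The general statement.  `u(g) = B_{p-1-2g} - ∑_l λ_l v_l(g)`; recurrences `∑_i q_i(g) u(g+i) ≡ 0 (mod p)` of length
`s` with polynomial coefficients of degree at most `d`, outside `d` intervals. -/
theorem general : ∃ c C : ℝ, 0 < c ∧ 0 < C ∧ ∀ (J D s d x : ℕ) (v : ℕ → ℕ → ℤ), 1 ≤ D →
    (D * (d + 1) * (1 + D * (s + d)) : ℝ) ≤ c * J → J ^ 3 ≤ x * (1 + D * (s + d)) ^ 2 →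
    (∀ i < D, ∀ g ∈ Finset.Icc 1 J, (|v i g| : ℝ) ≤ Real.exp (x / J)) →
    (((Finset.Icc 1 x).filter (fun p : ℕ => p.Prime ∧
      ∃ (lam : ℕ → ℤ) (q : ℕ → Polynomial ℤ) (a b : ℕ → ℕ),
      (∀ i ≤ s, (q i).natDegree ≤ d) ∧ (∃ i ≤ s, ∃ n, ¬ (p : ℤ) ∣ (q i).coeff n) ∧
      D * ∑ i ∈ Finset.range d, ((b i - a i : ℕ) : ℝ) ≤ c * J ∧
      ∀ g : ℕ, c * J ≤ D * g → g + s ≤ J → (∀ i < d, g ∉ Finset.Ico (a i) (b i)) →
        (p : ℤ) ∣ (∑ i ∈ Finset.range (s + 1), (((q i).eval (g : ℤ) : ℤ) : ℚ) *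
          (bernoulli (p - 1 - 2 * (g + i)) -
            ∑ l ∈ Finset.range D, (lam l : ℚ) * v l (g + i))).num)).card : ℝ) ≤
      C * (D ^ 2 * (1 + D * (s + d)) * (Real.log J / J)) * Nat.primeCounting x :=
  _root_.MP_a3a416_nt.HK.theorem_PI

end Pool.Agent.Results.MP_a3a416_nt.LastBernoulli
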