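import Pool.Agent.Lib.MP_a3a416_nt.BB.Final

/-!
For almost all primes `p`, many of the *last* Bernoulli numbers `B_{p-3}, B_{p-5}, ..., B_{p-1-2K}` are
prime to `p`.

An odd prime `p` is regular iff `p` divides none of the numerators of `B_2, B_4, ..., B_{p-3}` (Kummer);
call `j ≥ 1`, `2j + 3 ≤ p`, good for `p` if `p` does not divide the numerator of `B_{p-1-2j}`. There are
absolute constants `c, C > 0` such that for all `K₀ ≥ 2` and all `x`, for all but at most
`C (log K₀ / √K₀) π(x)` of the primes `p ≤ x` the following holds: for every `K` with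
`K₀ ≤ K ≤ √x` at least `c √K` of the indices `j ≤ K` are good for `p`.
-/

namespace Pool.Agent.Results.MP_a3a416_nt.LastIndices

open Classical in
theorem result : ∃ c C : ℝ, 0 < c ∧ 0 < C ∧ ∀ K₀ x : ℕ, 2 ≤ K₀ →
    (((Finset.Icc 1 x).filter (fun p : ℕ => p.Prime ∧ ∃ K : ℕ, K₀ ≤ K ∧ K ^ 2 ≤ x ∧
      (((Finset.Icc 1 K).filter (fun j : ℕ => 2 * j + 3 ≤ p ∧
        ¬ (p : ℤ) ∣ (bernoulli (p - 1 - 2 * j)).num)).card : ℝ) < c * Real.sqrt K)).card : ℝ)
      ≤ C * (Real.log K₀ / Real.sqrt K₀) * Nat.primeCounting x := by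
  obtain ⟨c, C, hc, hC, h⟩ := _root_.MP_a3a416_nt.BB.almost_all
  refine ⟨c, C, hc, hC, fun K₀ x hK₀ => ?_⟩
  refine le_trans (le_of_eq ?_) (h K₀ x hK₀)
  unfold _root_.MP_a3a416_nt.BB.goodIdx
  congr!

end Pool.Agent.Results.MP_a3a416_nt.LastIndices
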