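import Pool.Agent.Lib.MP_a3a416_nt.HK.ReadC

/-!
# Linear complexity of the last Bernoulli numbers modulo `p`

An odd prime `p` is regular iff `p` divides none of the numerators of `B_2, B_4, ..., B_{p-3}` (Kummer).  The last `J` of
these numbers, `B_{p-3}, B_{p-5}, ..., B_{p-1-2J}`, satisfy no short linear relation modulo almost all primes `p`: there
are absolute constants `c, C > 0` such that

1. (Polynomial coefficients, with exceptions, modulo a space of dimension `D`.)  Let `D ≥ 1`, `s, d ≥ 0`,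
   `D (d + 1) (1 + D (s + d)) ≤ c J`, `x ≥ J^3 / (1 + D (s + d))^2` and let `v_l(g)`, `l < D`, be any integers of absolute
   value at most `exp(x/J)`.  Then at most `C D^2 (1 + D (s + d)) (log J / J) π(x)` primes `p ≤ x` have integers `λ_l`
   and integer polynomials `q_0, ..., q_s` of degree at most `d`, not all divisible by `p`, such that
   `∑_i q_i(g) u(g + i) ≡ 0 (mod p)`, `u(g) = B_{p-1-2g} - ∑_l λ_l v_l(g)`, for all `g` with `c J / D ≤ g ≤ J - s`
   outside `d` intervals of total length at most `c J / D`.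
2. (The case `D = 1`, `v = 0`, `d = 0` of 1, linear complexity.)  For all `J ≥ 2`, `s ≥ 0` and `x ≥ J^3 / (s + 1)^2`, at
   most `C (s + 1) (log J / J) π(x)` primes `p` in `[2J + 3, x]` have integers `q_0, ..., q_s`, not all divisible by `p`,
   such that `q_0 B_{p-1-2g} + q_1 B_{p-1-2(g+1)} + ... + q_s B_{p-1-2(g+s)} ≡ 0 (mod p)` for all `1 ≤ g ≤ J - s`.

(`p` divides a rational number if it divides its numerator.)
-/

namespace Pool.Agent.Results.MP_a3a416_nt.LinearComplexity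

open Classical in
theorem result : ∃ c C : ℝ, 0 < c ∧ 0 < C ∧
    (∀ (J D s d x : ℕ) (v : ℕ → ℕ → ℤ), 1 ≤ D →
      (D * (d + 1) * (1 + D * (s + d)) : ℝ) ≤ c * J → J ^ 3 ≤ x * (1 + D * (s + d)) ^ 2 →
      (∀ i < D, ∀ g ∈ Finset.Icc 1 J, (|v i g| : ℝ) ≤ Real.exp (x / J)) →
      (((Finset.Icc 1 x).filter (fun p : ℕ => p.Prime ∧
        ∃ (lam : ℕ → ℤ) (q : ℕ → Polynomial ℤ) (a b : ℕ → ℕ),
        (∀ i ≤ s, (q i).natDegree ≤ d) ∧ (∃ i ≤ s, ∃ n, ¬ (p : ℤ) ∣ (q i).coeff n) ∧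
        D * ∑ i ∈ Finset.range d, ((b i - a i : ℕ) : ℝ) ≤ c * J ∧
        ∀ g : ℕ, c * J ≤ D * g → g + s ≤ J → (∀ i < d, g ∉ Finset.Ico (a i) (b i)) →
          (p : ℤ) ∣ (∑ i ∈ Finset.range (s + 1), (((q i).eval (g : ℤ) : ℤ) : ℚ) *
            (bernoulli (p - 1 - 2 * (g + i)) -
              ∑ l ∈ Finset.range D, (lam l : ℚ) * v l (g + i))).num)).card : ℝ) ≤
        C * (D ^ 2 * (1 + D * (s + d)) * (Real.log J / J)) * Nat.primeCounting x) ∧
    (∀ J s x : ℕ, 2 ≤ J → J ^ 3 ≤ x * (s + 1) ^ 2 →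
      (((Finset.Icc (2 * J + 3) x).filter (fun p : ℕ => p.Prime ∧
        ∃ q : ℕ → ℤ, (∃ i ≤ s, ¬ (p : ℤ) ∣ q i) ∧ ∀ g : ℕ, 1 ≤ g → g + s ≤ J →
          (p : ℤ) ∣ (∑ i ∈ Finset.range (s + 1), q i * bernoulli (p - 1 - 2 * (g + i))).num)).card : ℝ) ≤
      C * ((s + 1) * (Real.log J / J)) * Nat.primeCounting x) := by
  obtain ⟨C₃, hC₃, h₃⟩ := _root_.MP_a3a416_nt.HK.complexity_part
  obtain ⟨c, C₁, hc, hC₁, h₁⟩ := _root_.MP_a3a416_nt.HK.theorem_PI
  refine ⟨c, max C₁ C₃, hc, lt_max_of_lt_left hC₁, ?_, ?_⟩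
  · intro J D s d x v hD hJ hx hv
    refine (h₁ J D s d x v hD hJ hx hv).trans (mul_le_mul_of_nonneg_right (mul_le_mul_of_nonneg_right (le_max_left _ _) ?_)
      (Nat.cast_nonneg _))
    have h1 : 0 ≤ Real.log J := Real.log_natCast_nonneg _
    positivity
  · intro J s x hJ hx
    refine (h₃ J s x hJ hx).trans (mul_le_mul_of_nonneg_right (mul_le_mul_of_nonneg_right (le_max_right _ _) ?_)
      (Nat.cast_nonneg _))
    have h1 : 0 ≤ Real.log J := Real.log_natCast_nonneg _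
    positivity

end Pool.Agent.Results.MP_a3a416_nt.LinearComplexity
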