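import Pool.Agent.Lib.MP_a3a416_nt.LJ.SubCount

/-!
Linear independence of the last Bernoulli numbers modulo `p`.

For `a ∈ ℚ^(J+1)` let `R_a(p) = a_0 + ∑_{1 ≤ g ≤ J} a_g B_{p-1-2g}`.  An odd prime `p` is regular iff it divides none of
the numerators of `B_2, B_4, ..., B_{p-3}`; the numbers `B_{p-3}, B_{p-5}, ..., B_{p-1-2J}` are the last `J` of them.

1. If `U` is a `ℚ`-subspace of `ℚ^(J+1)` of codimension `D`, then at most `C D² (log J / J) x / log x` primes `p ≤ x`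
   satisfy all the integral relations `p ∣ R_a(p)`, `a ∈ U ∩ ℤ^(J+1)`.
2. If every `a ∈ U` is a relation outside a set of primes of density zero, then `D ≥ c √(J / log J)`.
-/

namespace Pool.Agent.Results.MP_a3a416_nt.LinearIndependence

/-- `R_a(p) = a_0 + ∑_{g=1}^J a_g B_{p-1-2g}`. -/
def relVal (J : ℕ) (a : Fin (J + 1) → ℚ) (p : ℕ) : ℚ :=
  a 0 + ∑ g : Fin J, a g.succ * bernoulli (p - 1 - 2 * (g.val + 1))

open Classical in
theorem result :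
    (∃ C : ℝ, 0 < C ∧ ∀ J : ℕ, 2 ≤ J → ∀ U : Submodule ℚ (Fin (J + 1) → ℚ),
      ∃ x₀ : ℕ, ∀ x : ℕ, x₀ ≤ x →
      (((Finset.Icc 1 x).filter (fun p : ℕ => p.Prime ∧
        ∀ a : Fin (J + 1) → ℤ, (fun i => (a i : ℚ)) ∈ U →
          (p : ℤ) ∣ (relVal J (fun i => (a i : ℚ)) p).num)).card : ℝ) ≤
      C * ((Module.finrank ℚ ((Fin (J + 1) → ℚ) ⧸ U) : ℝ) ^ 2 * (Real.log J / J) *
        (x / Real.log x))) ∧
    (∃ c : ℝ, 0 < c ∧ ∀ J : ℕ, 2 ≤ J → ∀ U : Submodule ℚ (Fin (J + 1) → ℚ),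
      (∀ a ∈ U, ∀ ε : ℝ, 0 < ε → ∃ x₀ : ℕ, ∀ x : ℕ, x₀ ≤ x →
        (((Finset.Icc 1 x).filter (fun p : ℕ => p.Prime ∧
          ¬ (p : ℤ) ∣ (relVal J a p).num)).card : ℝ) ≤ ε * (x / Real.log x)) →
      c * Real.sqrt (J / Real.log J) ≤ (Module.finrank ℚ ((Fin (J + 1) → ℚ) ⧸ U) : ℝ)) := by
  constructor
  · obtain ⟨C, hC, h⟩ := _root_.MP_a3a416_nt.LJ.sub_count
    refine ⟨C, hC, fun J hJ U => ?_⟩
    obtain ⟨x₀, hx₀⟩ := h J hJ U
    refine ⟨x₀, fun x hx => ?_⟩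
    exact hx₀ x hx
  · obtain ⟨c, hc, h⟩ := _root_.MP_a3a416_nt.LJ.dimension_j
    refine ⟨c, hc, fun J hJ U hU => (h J hJ).trans ?_⟩
    have hle : U ≤ _root_.MP_a3a416_nt.LI.Rel J := by
      intro a ha ε hε
      obtain ⟨x₀, hx₀⟩ := hU a ha ε hε
      refine ⟨x₀, fun x hx => ?_⟩
      convert hx₀ x hx
      rfl
    have h1 : Module.finrank ℚ ((Fin (J + 1) → ℚ) ⧸ _root_.MP_a3a416_nt.LI.Rel J) ≤
        Module.finrank ℚ ((Fin (J + 1) → ℚ) ⧸ U) :=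
      LinearMap.finrank_le_finrank_of_surjective (f := Submodule.factor hle)
        (Submodule.factor_surjective hle)
    exact_mod_cast h1

end Pool.Agent.Results.MP_a3a416_nt.LinearIndependence
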