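import Pool.Agent.Lib.MP_a3a416_nt.HK.Final

/-!
The last Bernoulli numbers modulo `p` satisfy no short recurrence with polynomial coefficients, even after the
subtraction of an element of a fixed space of small dimension and with some exceptions.

An odd prime `p` is regular iff `p` divides none of the numerators of `B_2, B_4, ..., B_{p-3}` (Kummer).  The last `J` of
these numbers, read from the end, are `B_{p-3}, B_{p-5}, ..., B_{p-1-2J}`.  There are absolute constants `c, C > 0` with the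
following property.  Let `D ≥ 1`, `s, d ≥ 0` with `D (d + 1) (1 + D (s + d)) ≤ c J`, `J^3 ≤ x (1 + D (s + d))^2`, and let
`v_1, ..., v_D ∈ ℤ^J` have entries of absolute value at most `e^(x/J)`.  Then at most
`C D^2 (1 + D (s + d)) (log J / J) π(x)` primes `p ≤ x` have integers `λ_l` and integral polynomials `q_0, ..., q_s` of
degree at most `d`, not all zero modulo `p`, such that with `u(g) = B_{p-1-2g} - ∑_l λ_l v_l(g)`

  `q_0(g) u(g) + q_1(g) u(g+1) + ... + q_s(g) u(g+s) ≡ 0 (mod p)`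

for all `g` with `c J / D ≤ g ≤ J - s` outside some `d` intervals `[a_i, b_i)` of total length at most `c J / D`.

* `D = 1`, `v = 0`, `d = 0`: the linear complexity (length of the shortest linear recurrence) of the sequence is `> s`.
* `s = 0`, `q_0 = 1`: more than `d` intervals of total length `c J / D` are needed to cover the `g ≤ J` with `u(g) ≢ 0`;
  for `v = 0` the `g` with `B_{p-1-2g} ≢ 0`.
* `s = d = 0`: linear independence of the finite zeta values `(B_{p-3})_p, ..., (B_{p-1-2J})_p`.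

(In Lean the vectors are `v 0, ..., v (D-1)`; `p - 1 - 2 g` is the truncated subtraction, so the Bernoulli number is
`B_0 = 1` for the few primes `p ≤ 2 g`.)
-/

namespace Pool.Agent.Results.MP_a3a416_nt.NoRecurrence

open Classical in
theorem result : ∃ c C : ℝ, 0 < c ∧ 0 < C ∧ ∀ (J D s d x : ℕ) (v : ℕ → ℕ → ℤ), 1 ≤ D →
    (D * (d + 1) * (1 + D * (s + d)) : ℝ) ≤ c * J → J ^ 3 ≤ x * (1 + D * (s + d)) ^ 2 →
    (∀ i < D, ∀ g ∈ Finset.Icc 1 J, (|v i g| : ℝ) ≤ Real.exp (x / J)) →
    (((Finset.Icc 1 x).filter (fun p : ℕ => p.Prime ∧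
      ∃ (lam : ℕ → ℤ) (q : ℕ → Polynomial ℤ) (a b : ℕ → ℕ),
      (∀ i ≤ s, (q i).natDegree ≤ d) ∧ (∃ i ≤ s, ∃ n, ¬ (p : ℤ) ∣ (q i).coeff n) ∧
      D * ∑ i ∈ Finset.range d, ((b i - a i : ℕ) : ℝ) ≤ c * J ∧
      ∀ g : ℕ, c * J ≤ D * g → g + s ≤ J → (∀ i < d, g ∉ Finset.Ico (a i) (b i)) →
        (p : ℤ) ∣ (∑ i ∈ Finset.range (s + 1), (((q i).eval (g : ℤ) : ℤ) : ℚ) *
          (bernoulli (p - 1 - 2 * (g + i)) -
            ∑ l ∈ Finset.range D, (lam l : ℚ) * v l (g + i))).num)).card : ℝ) ≤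
      C * (D ^ 2 * (1 + D * (s + d)) * (Real.log J / J)) * Nat.primeCounting x :=
  _root_.MP_a3a416_nt.HK.theorem_PI

end Pool.Agent.Results.MP_a3a416_nt.NoRecurrence
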