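import Pool.Agent.Lib.MP_a3a416_nt.ShortGap

/-!
For *every* prime `p`, runs of consecutive irregular indices are short.

An odd prime `p` is regular iff `p` divides none of the numerators of `B_2, B_4, ..., B_{p-3}`
(Kummer). Call `j ≥ 1`, `2j ≤ p - 3`, irregular if `p` divides the numerator of `B_{2j}`. We prove that a
run `K+1, ..., K+L` of irregular indices satisfies `(L+1)(2L+1) < 2K`; so every interval
`(K, K+L]` in the range with `K ≤ L^2` contains an index `j` such that `p` does not divide the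
numerator of `B_{2j}`.
-/

namespace Pool.Agent.Results.MP_a3a416_nt.ShortGaps

theorem result (p : ℕ) (hp : p.Prime) :
    (∀ K L : ℕ, 1 ≤ L → 2 * (K + L) + 3 ≤ p →
      (∀ j, K < j → j ≤ K + L → (p : ℤ) ∣ (bernoulli (2 * j)).num) →
      (L + 1) * (2 * L + 1) < 2 * K) ∧
    (∀ K L : ℕ, 1 ≤ L → K ≤ L ^ 2 → 2 * (K + L) + 3 ≤ p →
      ∃ j, K < j ∧ j ≤ K + L ∧ ¬ (p : ℤ) ∣ (bernoulli (2 * j)).num) := by
  have : Fact p.Prime := ⟨hp⟩
  have key : ∀ K L : ℕ, 1 ≤ L → 2 * (K + L) + 3 ≤ p →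
      (∀ j, K < j → j ≤ K + L → (p : ℤ) ∣ (bernoulli (2 * j)).num) →
      (L + 1) * (2 * L + 1) < 2 * K := fun K L hL hKL h =>
    Pool.Agent.Lib.MP_a3a416_nt.irregular_run (by omega) hL hKL h
  refine ⟨key, fun K L hL hK hKL => ?_⟩
  by_contra hcon
  push Not at hcon
  have h := key K L hL hKL hcon
  nlinarith

end Pool.Agent.Results.MP_a3a416_nt.ShortGaps
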