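import Pool.Agent.Lib.MP_a3a416_nt.WW.Main

/-!
For *every* prime `p` and every window `(b - 2W, b]`, `b ≤ p - 3`, `400 √b ≤ W ≤ b / 2`, at least
`min (W² / b, W / b^(1/3)) / 6000` of the even `k` in the window are such that `p` does not divide the
numerator of `B_k`.
-/

namespace Pool.Agent.Results.MP_a3a416_nt.ShortIntervals

theorem result (p b W : ℕ) (hp : p.Prime) (hb1 : 1 ≤ b) (hb : b + 3 ≤ p)
    (hW : 400 * √(b : ℝ) ≤ W) (hWb : 2 * W ≤ b) :
    min ((W : ℝ) ^ 2 / b) (W / (b : ℝ) ^ ((1 : ℝ) / 3)) / 6000 ≤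
      (({k ∈ Finset.Ioc (b - 2 * W) b | Even k ∧ ¬ (p : ℤ) ∣ (bernoulli k).num}.card : ℕ) : ℝ) := by
  have h := MP_a3a416_nt.WW.main hp hb1 hb hW hWb
  have hc : MP_a3a416_nt.WW.good p b W =
      {k ∈ Finset.Ioc (b - 2 * W) b | Even k ∧ ¬ (p : ℤ) ∣ (bernoulli k).num} := by
    ext k
    simp only [MP_a3a416_nt.WW.good, Finset.mem_filter, Finset.mem_range, Finset.mem_Ioc]
    constructor
    · rintro ⟨h1, h2, h3, h4⟩
      exact ⟨by omega, h2, h4⟩
    · rintro ⟨h1, h2, h4⟩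
      exact ⟨by omega, h2, by omega, h4⟩
  rw [hc] at h
  exact h

end Pool.Agent.Results.MP_a3a416_nt.ShortIntervals
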