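import Pool.Agent.Lib.MP_a3a416_nt.TW.Gaps

/-!
# Gaps between regular indices near `p`

An odd prime `p` is regular iff it divides none of the numerators of `B_2, B_4, ..., B_{p-3}`.

(1) Almost all primes: for `δ, ε > 0` there are `e₀, x₀` such that for `x ≥ x₀` all but `ε x / log x`
of the primes `p ≤ x` have an odd `k` with `p ∤ B_{p-k}` in every interval `(e, e + e^(3/4+δ)]`,
`e₀ ≤ e ≤ x^(4/7-δ)`.

(2) Uniformly in `e`, `z` and `x ≥ C z (e+z)`: at most `C ((e+z)^2 log(2z)/z^3) x/log x` primes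
`p ≤ x` divide the numerators of `B_{p-k}` for all odd `k ≥ 3` with `e < k ≤ e+z`; this is less than
any given proportion of the primes as soon as `z ≥ C' (e^2 log e)^(1/3)`.
-/

namespace Pool.Agent.Results.MP_a3a416_nt.ShortWindows

open Classical in
theorem result :
    (∀ δ : ℝ, 0 < δ → ∀ ε : ℝ, 0 < ε → ∃ e₀ x₀ : ℕ, ∀ x : ℕ, x₀ ≤ x →
      (((Finset.Icc 1 x).filter (fun p : ℕ => p.Prime ∧
        ∃ e : ℕ, e₀ ≤ e ∧ (e : ℝ) ≤ (x : ℝ) ^ (4 / 7 - δ) ∧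
          ∀ k : ℕ, Odd k → e < k → (k : ℝ) ≤ e + (e : ℝ) ^ (3 / 4 + δ) →
            (p : ℤ) ∣ (bernoulli (p - k)).num)).card : ℝ) ≤ ε * (x / Real.log x)) ∧
    (∃ C : ℝ, 0 < C ∧ ∀ e z x : ℕ, 1 ≤ z → C * ((z : ℝ) * (e + z)) ≤ x →
      (((Finset.Icc 1 x).filter (fun p : ℕ => p.Prime ∧
        ∀ k : ℕ, Odd k → 3 ≤ k → e < k → k ≤ e + z →
          (p : ℤ) ∣ (bernoulli (p - k)).num)).card : ℝ) ≤
        C * (((e : ℝ) + z) ^ 2 * Real.log (2 * z) / (z : ℝ) ^ 3 * (x / Real.log x))) := by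
  refine ⟨fun δ hδ ε hε => _root_.MP_a3a416_nt.TW.gaps_T δ hδ ε hε, ?_⟩
  obtain ⟨C, hC, h⟩ := _root_.MP_a3a416_nt.TW.count_T
  refine ⟨C, hC, fun e z x hz hx => ?_⟩
  refine le_trans ?_ (h e z x hz hx)
  have hsub : (Finset.Icc 1 x).filter (fun p : ℕ => p.Prime ∧
        ∀ k : ℕ, Odd k → 3 ≤ k → e < k → k ≤ e + z → (p : ℤ) ∣ (bernoulli (p - k)).num) ⊆
      (Finset.Icc 1 x).filter (fun p : ℕ => p.Prime ∧ _root_.MP_a3a416_nt.TW.Bad e z p) := by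
    intro p hp
    rw [Finset.mem_filter] at hp ⊢
    refine ⟨hp.1, hp.2.1, ?_⟩
    intro g hg1 hg2 hg3
    have h1 := hp.2.2 (2 * g + 1) ⟨g, rfl⟩ (by omega) (by omega) (by omega)
    have h2 : p - (2 * g + 1) = p - 1 - 2 * g := by omega
    rwa [h2] at h1
  exact_mod_cast Finset.card_le_card hsub

end Pool.Agent.Results.MP_a3a416_nt.ShortWindows
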