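import Pool.Agent.Lib.MP_a3a416_nt.QS.Final

/-!
(a) For all but `O(x / (log x)^(26/25))` of the primes `p ≤ x` with `p ≡ 5 (mod 8)`, the prime `p`
divides neither the numerator of `B_{(p+3)/4}` nor that of `B_{(3p+1)/4}`.
(b) For all but `O(x / (log x)^(26/25))` of the primes `p ≤ x` with `p ≡ 7 (mod 12)`, the prime `p`
divides neither the numerator of `B_{(p+5)/6}` nor that of `B_{(5p+1)/6}`.
In particular there are infinitely many such primes in both cases.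
-/

namespace Pool.Agent.Results.MP_a3a416_nt.SmallOrderIndices

theorem result :
    ((∃ C : ℝ, ∀ x : ℕ, 2 ≤ x →
      (((Finset.Icc 1 x).filter (fun p : ℕ => p.Prime ∧ p % 8 = 5 ∧
        ((p : ℤ) ∣ (bernoulli ((p + 3) / 4)).num ∨
          (p : ℤ) ∣ (bernoulli ((3 * p + 1) / 4)).num))).card : ℝ) ≤
        C * x / (Real.log x) ^ (26 / 25 : ℝ)) ∧
    {p : ℕ | p.Prime ∧ p % 8 = 5 ∧ ¬ (p : ℤ) ∣ (bernoulli ((p + 3) / 4)).num ∧
      ¬ (p : ℤ) ∣ (bernoulli ((3 * p + 1) / 4)).num}.Infinite) ∧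
    ((∃ C : ℝ, ∀ x : ℕ, 2 ≤ x →
      (((Finset.Icc 1 x).filter (fun p : ℕ => p.Prime ∧ p % 12 = 7 ∧
        ((p : ℤ) ∣ (bernoulli ((p + 5) / 6)).num ∨
          (p : ℤ) ∣ (bernoulli ((5 * p + 1) / 6)).num))).card : ℝ) ≤
        C * x / (Real.log x) ^ (26 / 25 : ℝ)) ∧
    {p : ℕ | p.Prime ∧ p % 12 = 7 ∧ ¬ (p : ℤ) ∣ (bernoulli ((p + 5) / 6)).num ∧
      ¬ (p : ℤ) ∣ (bernoulli ((5 * p + 1) / 6)).num}.Infinite) := by
  constructor
  · constructor
    · obtain ⟨C, hC⟩ := Pool.QS.count4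
      refine ⟨C, fun x hx => ?_⟩
      have h := hC x hx
      have e : (1 + 1 / 25 : ℝ) = 26 / 25 := by norm_num
      rw [e] at h
      refine le_trans (le_of_eq ?_) h
      unfold Pool.QS.Irr4
      congr!
    · refine Pool.QS.inf4.mono fun p hp => ?_
      obtain ⟨h1, h2, h3⟩ := hp
      exact ⟨h1, h2, fun h => h3 (Or.inl h), fun h => h3 (Or.inr h)⟩
  · constructor
    · obtain ⟨C, hC⟩ := Pool.QS.count6
      refine ⟨C, fun x hx => ?_⟩
      have h := hC x hx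
      have e : (1 + 1 / 25 : ℝ) = 26 / 25 := by norm_num
      rw [e] at h
      refine le_trans (le_of_eq ?_) h
      unfold Pool.QS.Irr6
      congr!
    · refine Pool.QS.inf6.mono fun p hp => ?_
      obtain ⟨h1, h2, h3⟩ := hp
      exact ⟨h1, h2, fun h => h3 (Or.inl h), fun h => h3 (Or.inr h)⟩

end Pool.Agent.Results.MP_a3a416_nt.SmallOrderIndices
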