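import Pool.Agent.Lib.MP_a3a416_nt.TwoSumCount

/-!
For every prime `p`, every even `m` with `4 ≤ m ≤ p - 3` is a sum of two positive even integers
`a`, `b` such that `p` divides neither the numerator of `B_a` nor that of `B_b`, in at least
`√(m/11)` ways; consequently at least `K^(3/4) / 2` of `B_2, B_4, ..., B_{2K}`, `K ≤ (p-3)/2`, have
numerator prime to `p`.
-/

namespace Pool.Agent.Results.MP_a3a416_nt.SumsOfTwo

/-- The number of even `a` with `1 ≤ a ≤ m - 1` such that `p` divides neither the numerator of `B_a`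
nor the numerator of `B_{m-a}`. -/
noncomputable def r (p m : ℕ) : ℕ :=
  {a ∈ Finset.Icc 1 (m - 1) | Even a ∧ ¬ (p : ℤ) ∣ (bernoulli a).num ∧
    ¬ (p : ℤ) ∣ (bernoulli (m - a)).num}.card

/-- The number of `1 ≤ j ≤ K` such that `p` does not divide the numerator of the Bernoulli
number `B_{2j}`. -/
noncomputable def R (p K : ℕ) : ℕ :=
  {j ∈ Finset.Icc 1 K | ¬ (p : ℤ) ∣ (bernoulli (2 * j)).num}.card

theorem result (p : ℕ) (hp : p.Prime) :
    (∀ m : ℕ, Even m → 4 ≤ m → m + 3 ≤ p → √((m : ℝ) / 11) ≤ (r p m : ℝ)) ∧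
    (∀ K : ℕ, 1 ≤ K → 2 * K + 3 ≤ p → (K : ℝ) ^ (3 / 4 : ℝ) / 2 ≤ (R p K : ℝ)) := by
  have hpF : Fact p.Prime := ⟨hp⟩
  constructor
  · intro m hme hm4 hmp
    have h1 := Pool.Agent.Lib.MP_a3a416_nt.reps_all (p := p) (by omega) hm4 hme hmp
    have h2 : (Pool.Agent.Lib.MP_a3a416_nt.SS p m).card ≤ r p m := by
      apply Finset.card_le_card
      intro i hi
      have hi := Finset.mem_filter.mp hi
      have hi1 := Finset.mem_Icc.mp hi.1
      refine Finset.mem_filter.mpr ⟨Finset.mem_Icc.mpr (by omega), ?_, ?_, ?_⟩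
      · by_contra hne
        apply hi.2.1
        rw [Pool.Agent.Lib.MP_a3a416_nt.cB_odd (by omega) (by omega) (Nat.not_even_iff_odd.mp hne)
          (by omega)]
        exact dvd_zero _
      · rw [← Pool.Agent.Lib.MP_a3a416_nt.dvd_cB_iff hp (by omega) (by omega)]
        exact hi.2.1
      · rw [← Pool.Agent.Lib.MP_a3a416_nt.dvd_cB_iff hp (by omega) (by omega)]
        exact hi.2.2
    have h3 : m ≤ 11 * (r p m) ^ 2 :=
      h1.trans (Nat.mul_le_mul_left _ (Nat.pow_le_pow_left h2 2))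
    have h4 : (m : ℝ) ≤ 11 * (r p m : ℝ) ^ 2 := by exact_mod_cast h3
    apply Real.sqrt_le_iff.mpr
    refine ⟨by positivity, ?_⟩
    linarith
  · intro K hK1 hK
    exact Pool.Agent.Lib.MP_a3a416_nt.count_three_quarters (p := p) (by omega) hK1 hK

end Pool.Agent.Results.MP_a3a416_nt.SumsOfTwo
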