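import Pool.Agent.Lib.MP_a3a416_nt.WIN.FinalW
import Pool.Agent.Lib.MP_a3a416_nt.WIN.AsyW

/-!
# Linear windows of indices, uniform in the position of the window

An odd prime `p` is regular iff it divides none of the numerators of `B_2, B_4, ..., B_{p-3}`.
For every odd `e ≥ 3` and arbitrary rational numbers `c_k`, a positive proportion of the primes `p`
does not divide the numerator of `B_{p-k} - c_k` for some odd `k` with `e < k ≤ (5e+3)/2`; for
`e ≥ 300` there is such a `k` with `e < k < 2e`, and for large `e` with `e < k ≤ (11/6 + η) e`.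

Analogue of: one of the numbers `ζ(k)`, `k` odd, `e < k ≤ w`, is irrational.
-/

namespace Pool.Agent.Results.MP_a3a416_nt.Windows

open Classical in
/-- The number of primes `p` with `w < p ≤ x` such that `p` does not divide the numerator of
`B_{p-k} - c_k` for at least one odd `k` with `e < k ≤ w`. -/
noncomputable def count (e w : ℕ) (c : ℕ → ℚ) (x : ℕ) : ℕ :=
  ((Finset.Icc 1 x).filter (fun p : ℕ => p.Prime ∧ w < p ∧
    ∃ k : ℕ, Odd k ∧ e < k ∧ k ≤ w ∧ ¬ (p : ℤ) ∣ (bernoulli (p - k) - c k).num)).card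

theorem result :
    (∀ e w : ℕ, Odd e → (3 ≤ e ∧ 5 * e + 3 ≤ 2 * w) ∨ (300 ≤ e ∧ 2 * e ≤ w + 1) →
      ∀ c : ℕ → ℚ, ∃ x₀ : ℕ, ∀ x : ℕ, x₀ ≤ x →
        (x : ℝ) / (200 * Real.log x) ≤ (count e w c x : ℝ)) ∧
    (∀ η : ℝ, 0 < η → ∃ δ : ℝ, 0 < δ ∧ ∃ e₀ : ℕ, ∀ e w : ℕ, Odd e → e₀ ≤ e →
      (11 / 6 + η) * e ≤ w → ∀ c : ℕ → ℚ, ∃ x₀ : ℕ, ∀ x : ℕ, x₀ ≤ x →
        δ * ((x : ℝ) / Real.log x) ≤ (count e w c x : ℝ)) := by
  classical
  have key : ∀ (e w : ℕ) (c : ℕ → ℚ) (x : ℕ),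
      ((Finset.range (x + 1)).filter (fun p : ℕ => p.Prime ∧ w < p ∧
        ∃ k : ℕ, Odd k ∧ e < k ∧ k ≤ w ∧
          ¬ (p : ℤ) ∣ (_root_.bernoulli (p - k) - c k).num)).card ≤ count e w c x := by
    intro e w c x
    unfold count
    apply Finset.card_le_card
    intro p hp
    rw [Finset.mem_filter, Finset.mem_range] at hp
    rw [Finset.mem_filter, Finset.mem_Icc]
    exact ⟨⟨hp.2.1.one_lt.le, by omega⟩, hp.2⟩
  constructor
  · intro e w he h c
    obtain ⟨x₀, h0⟩ := Filter.eventually_atTop.1 (_root_.MP_a3a416_nt.WIN.windows e w he h c)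
    refine ⟨x₀, fun x hx => (h0 x hx).trans ?_⟩
    have := key e w c x
    convert (Nat.cast_le (α := ℝ)).2 this
  · intro η hη
    obtain ⟨δ, hδ, e0, h⟩ := _root_.MP_a3a416_nt.WIN.windows_asy η hη
    refine ⟨δ, hδ, e0, fun e w he hee hw c => ?_⟩
    obtain ⟨x₀, h0⟩ := Filter.eventually_atTop.1 (h e w he hee hw c)
    refine ⟨x₀, fun x hx => (h0 x hx).trans ?_⟩
    have := key e w c x
    convert (Nat.cast_le (α := ℝ)).2 this

end Pool.Agent.Results.MP_a3a416_nt.Windows
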